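import Mathlib

/-!
# Jacobians of the curves `y ^ 2 = f(x)`, their forms over `ℚ`, and Tate-Shafarevich groups

`f` is a polynomial of odd degree with integral coefficients, and `J` is the Jacobian of the curve
`y ^ 2 = f(x)`. A representation `R : Gal(ℚ) → GL_r(ℤ)` with finite image gives the abelian variety
`A = J ⊗ ℤ ^ r` over `ℚ`, a form of `J ^ r`: the points of `A` over the separable closure of `ℚ` are the
`r`-tuples of points of `J`, and `σ` acts by its action on the coordinates, followed by the matrix `R(σ)`.
-/

set_option autoImplicit false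

open Polynomial

namespace Pool.Agent.H8.Sha

/-- The polynomial `f` over the field `L`. -/
noncomputable def base (f : ℤ[X]) (L : Type) [Field L] : L[X] := f.map (Int.castRingHom L)

theorem base_map (f : ℤ[X]) {L L' : Type} [Field L] [Field L'] (φ : L →+* L') :
    (base f L).map φ = base f L' := by
  rw [base, base, Polynomial.map_map]
  congr 1
  exact RingHom.ext_int _ _

/-- The affine coordinate ring `L[x, y] / (y ^ 2 - f(x))` of the curve over the field `L`. -/
def Coord (f : ℤ[X]) (L : Type) [Field L] : Type :=
  AdjoinRoot (X ^ 2 - C (base f L) : L[X][X])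

noncomputable instance instCoord (f : ℤ[X]) (L : Type) [Field L] : CommRing (Coord f L) :=
  AdjoinRoot.instCommRing _

/-- The homomorphism of coordinate rings given by a homomorphism of fields. -/
noncomputable def Coord.map (f : ℤ[X]) {L L' : Type} [Field L] [Field L'] (φ : L →+* L') :
    Coord f L →+* Coord f L' :=
  AdjoinRoot.map (mapRingHom φ) _ _ (by
    rw [Polynomial.map_sub, Polynomial.map_pow, map_X, map_C, coe_mapRingHom, base_map])

/-- The group `J(L)` of the points of the Jacobian `J` of the curve `y ^ 2 = f(x)` over the field `L`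
(written multiplicatively): as there is one point at infinity, which is rational, it is the Picard
group of the affine coordinate ring. -/
def Jac (f : ℤ[X]) (L : Type) [Field L] : Type := CommRing.Pic (Coord f L)

noncomputable instance instJac (f : ℤ[X]) (L : Type) [Field L] : CommGroup (Jac f L) :=
  instCommGroupPic (Coord f L)

/-- The homomorphism `J(L) → J(L')` given by a homomorphism of fields. -/
noncomputable def Jac.map (f : ℤ[X]) {L L' : Type} [Field L] [Field L'] (φ : L →+* L') :
    Jac f L →* Jac f L' :=
  CommRing.Pic.mapRingHom (Coord.map f φ)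

/-- The absolute Galois group. -/
abbrev Gal (K : Type) [Field K] : Type := SeparableClosure K ≃ₐ[K] SeparableClosure K

/-- The action of an integral matrix on `G ^ r`, `G` a commutative group (written multiplicatively). -/
def mat {G : Type} [CommGroup G] {r : ℕ} (A : Matrix (Fin r) (Fin r) ℤ) (P : Fin r → G) :
    Fin r → G := fun i => ∏ j, P j ^ A i j

namespace Form

section form

variable (f : ℤ[X]) {r : ℕ} (R : Gal ℚ →* (Matrix (Fin r) (Fin r) ℤ)ˣ)

/-- The points of `A = J ⊗ ℤ ^ r` over an algebraically closed field. -/
abbrev Pts (f : ℤ[X]) (r : ℕ) (L : Type) [Field L] : Type := Fin r → Jac f L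

/-- The action of the Galois group on the points of `A = J ⊗ ℤ ^ r`: `σ` applied to the coordinates,
followed by the matrix `R(σ)`. -/
noncomputable def act (σ : Gal ℚ) (P : Pts f r (SeparableClosure ℚ)) :
    Pts f r (SeparableClosure ℚ) :=
  mat (R σ : Matrix (Fin r) (Fin r) ℤ)
    (fun i => Jac.map f (σ : SeparableClosure ℚ →+* SeparableClosure ℚ) (P i))

/-- `P` is a rational point of `A`: `P ∈ A(ℚ)`. -/
def Rational (P : Pts f r (SeparableClosure ℚ)) : Prop := ∀ σ : Gal ℚ, act f R σ P = P

/-- Continuous 1-cocycles of the absolute Galois group of `ℚ` with values in `A`. -/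
def IsCocycle (c : Gal ℚ → Pts f r (SeparableClosure ℚ)) : Prop :=
  IsLocallyConstant c ∧ ∀ σ τ : Gal ℚ, c (σ * τ) = c σ * act f R σ (c τ)

/-- Coboundaries. -/
def IsCoboundary (c : Gal ℚ → Pts f r (SeparableClosure ℚ)) : Prop :=
  ∃ Q : Pts f r (SeparableClosure ℚ), ∀ σ : Gal ℚ, c σ = act f R σ Q / Q

/-- The class of `c` becomes zero over the field `E`: for an embedding `ι` of the separable closure of `ℚ`
in that of `E` there is a point `P` of `A` over the separable closure of `E` with `c(σ) = τ P / P` for
every `τ` in the absolute Galois group of `E` with restriction `σ`. -/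
def TrivialOver (E : Type) [Field E] (c : Gal ℚ → Pts f r (SeparableClosure ℚ)) : Prop :=
  ∃ (ι : SeparableClosure ℚ →+* SeparableClosure E) (P : Pts f r (SeparableClosure E)),
    ∀ (τ : Gal E) (σ : Gal ℚ), (∀ x, τ (ι x) = ι (σ x)) →
      (fun i => Jac.map f ι (c σ i)) = mat (R σ : Matrix (Fin r) (Fin r) ℤ)
        (fun i => Jac.map f (τ : SeparableClosure E →+* SeparableClosure E) (P i)) / P

/-- Multiplication by two (the square, in our notation) is bijective on `A(ℚ)`, and the 2-primary part of
`Ш(A/ℚ)` is zero: a continuous cocycle which is locally trivial over `ℝ` and over all `ℚ_p` and whose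
class has 2-power order is a coboundary. -/
structure NoTwoPart : Prop where
  points : ∀ P, Rational f R P → ∃! Q, Rational f R Q ∧ Q ^ 2 = P
  sha : ∀ (c : Gal ℚ → Pts f r (SeparableClosure ℚ)) (m : ℕ), IsCocycle f R c →
    (∀ (p : ℕ) [Fact p.Prime], TrivialOver f R ℚ_[p] c) → TrivialOver f R ℝ c →
    IsCoboundary f R (fun σ => c σ ^ 2 ^ m) → IsCoboundary f R c

end form

end Form

end Pool.Agent.H8.Sha
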