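import Pool.Agent.H8.Sha.Cls
import Pool.Agent.H8.Sha.Def
import Pool.Graph.R_pool_sql_team_seeded_63374d34.Results.MP_f80667_ag.TwoExtensionsAllSignatures

/-!
# The Jacobians over the number fields in `C(f, S)`, of any signature
-/

set_option autoImplicit false

open Polynomial IsDedekindDomain NumberField Filter

namespace Pool.Agent.H8.Sha

/-- `J` has no 2-part over the fields in `C(f, S)`. -/
def UnifM (S : Finset ℕ) (f : ℤ[X]) : Prop :=
  ∀ (M : Type) [Field M] [NumberField M], InClass f S M →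
    Pool.Agent.N874.Jac.UniquelyTwoDivisible (base f M) ∧
      Pool.Agent.N874.Jac.ShaTwoTrivialReal (base f M) (𝓞 M)

theorem allsig (g : ℕ) (hg : 1 ≤ g) (T : Finset ℕ) (hT : ∀ p ∈ T, p.Prime) :
    (∀ B : ℕ, 1 ≤ B → (Polys g B).Finite) ∧
    ∃ S : Finset ℕ, (∀ q ∈ S, q.Prime) ∧ Disjoint S (insert 2 T) ∧
      ∃ c : ℝ, 0 < c ∧ ∀ᶠ B : ℕ in atTop, 0 < (Polys g B).ncard ∧
        c * ((Polys g B).ncard : ℝ) ≤ (({f ∈ Polys g B | Irreducible (f.map (Int.castRingHom ℚ)) ∧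
          IrreducibleMod f 2 ∧ (∀ p ∈ T, IrreducibleMod f p) ∧ UnifM S f} : Set ℤ[X]).ncard : ℝ) := by
  have heq : ∀ B, Polys g B = {f : ℤ[X] | Pool.Agent.N783.PQ.Ht g B f} := by
    intro B
    ext f
    exact ⟨fun h => ⟨h.monic, h.degree, h.trace, h.height⟩, fun h => ⟨h.mon, h.deg, h.tr, h.ht⟩⟩
  have hfin : ∀ B : ℕ, 1 ≤ B → (Polys g B).Finite := by
    intro B hB
    rw [heq]
    exact (Pool.Agent.N400.PQ.ht_card g B hB).1
  refine ⟨hfin, ?_⟩
  obtain ⟨S, hS, hdis, c, hc, B₀, hB₀⟩ := Pool.Agent.N874.TC.final hg (insert 2 T) (by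
    intro p hp
    rcases Finset.mem_insert.1 hp with rfl | hp
    · exact Nat.prime_two
    · exact hT p hp)
  refine ⟨S, hS, hdis, c, hc, ?_⟩
  filter_upwards [eventually_ge_atTop B₀, eventually_ge_atTop 1] with B hB hB1
  obtain ⟨hHt, hle⟩ := hB₀ B hB
  have hsub : {f : ℤ[X] | Pool.Agent.N783.PQ.Ht g B f ∧ Irreducible (Pool.Agent.N783.PQ.ov ℚ f) ∧
      (∀ p ∈ insert 2 T, Irreducible (Pool.Agent.N783.PQ.rd p f)) ∧
      Pool.Agent.N874.TQ.Tws g S f ∧ Pool.Agent.N874.TC.Uni S f f ∧ Pool.Agent.N874.TC.Mono f} ⊆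
      {f ∈ Polys g B | Irreducible (f.map (Int.castRingHom ℚ)) ∧
          IrreducibleMod f 2 ∧ (∀ p ∈ T, IrreducibleMod f p) ∧ UnifM S f} := by
    rintro f ⟨h1, h3, hTi, htw, h4, -⟩
    refine ⟨⟨h1.mon, h1.deg, h1.tr, h1.ht⟩, h3, hTi 2 (Finset.mem_insert_self 2 T),
      fun p hp => hTi p (Finset.mem_insert_of_mem hp), ?_⟩
    intro M _ _ hM
    obtain ⟨n, hn⟩ := hM.degree
    obtain ⟨τ⟩ := hM.dyadic
    have hgal : IsGalois ℚ M := hM.galois
    have hsel : Pool.Agent.N874.QM.SelM M (f.map (algebraMap ℤ M)) := by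
      refine h4 M τ n hn (fun q hq w hw => ⟨?_, fun y => ?_⟩) fun p hp hram => ?_
      · exact (Pool.Agent.N874.TQ.val_iff q w hw).2 ((hM.split q hq).1 w hw)
      · obtain ⟨y, rfl⟩ := Ideal.Quotient.mk_surjective y
        obtain ⟨b, hb⟩ := (hM.split q hq).2 w hw y
        exact ⟨b, (Ideal.Quotient.eq.2 hb).symm⟩
      · rcases hM.ramified p hp with h | h
        · obtain ⟨w, hw, hne⟩ := hram
          exact absurd ((Pool.Agent.N874.TQ.val_iff p w hw).2 (h w hw)) hne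
        · exact h
    have h5 := Pool.Agent.N874.QM.genuine M hn h1.mon
      (by rw [h1.deg]; exact odd_two_mul_add_one g) h3 hsel
    have e : base f M = f.map (algebraMap ℤ M) := by
      unfold base
      congr 1
    rw [e]
    exact h5
  have h1 := Set.ncard_le_ncard hsub ((hfin B hB1).subset fun f hf => hf.1)
  rw [heq]
  refine ⟨?_, hle.trans (by rw [← heq]; exact_mod_cast h1)⟩
  rw [Set.ncard_pos hHt]
  refine ⟨X ^ (2 * g + 1), monic_X_pow _, natDegree_X_pow _, ?_, fun j hj => ?_⟩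
  · rw [coeff_X_pow, if_neg (by omega)]
  · rw [coeff_X_pow, if_neg (by omega), abs_zero]
    positivity

end Pool.Agent.H8.Sha
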