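import Mathlib

/-!
# The family of the polynomials `f`, and the classes `C(f, S)` of number fields
-/

set_option autoImplicit false

open Polynomial IsDedekindDomain NumberField

namespace Pool.Agent.H8.Sha

/-- `f` is a monic integral polynomial of degree `2 g + 1` without term of degree `2 g` and of height at
most `B`. -/
structure IsPoly (g B : ℕ) (f : ℤ[X]) : Prop where
  monic : f.Monic
  degree : f.natDegree = 2 * g + 1
  trace : f.coeff (2 * g) = 0
  height : ∀ j ≤ 2 * g, |f.coeff j| ≤ (B : ℤ) ^ (2 * g + 1 - j)

/-- The polynomials `f` of height at most `B`. -/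
def Polys (g B : ℕ) : Set ℤ[X] := {f | IsPoly g B f}

/-- `f` is irreducible modulo `p`. -/
def IrreducibleMod (f : ℤ[X]) (p : ℕ) : Prop := Irreducible (f.map (Int.castRingHom (ZMod p)))

/-- `p` is unramified in the number field `M`. -/
def Unramified (M : Type) [Field M] [NumberField M] (p : ℕ) : Prop :=
  ∀ w : HeightOneSpectrum (𝓞 M), (p : 𝓞 M) ∈ w.asIdeal → (p : 𝓞 M) ∉ w.asIdeal ^ 2

/-- `q` splits completely in the number field `M`: it is unramified, and all algebraic integers in `M`
are congruent to integers modulo every prime over `q`. -/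
def SplitsCompletely (M : Type) [Field M] [NumberField M] (q : ℕ) : Prop :=
  Unramified M q ∧ ∀ w : HeightOneSpectrum (𝓞 M), (q : 𝓞 M) ∈ w.asIdeal →
    ∀ y : 𝓞 M, ∃ c : ℤ, y - (c : 𝓞 M) ∈ w.asIdeal

/-- The class `C(f, S)`: `M` is Galois over `ℚ` of 2-power degree, it can be embedded in `ℚ_2`, all
`q ∈ S` split completely in `M`, and only primes are ramified in `M` modulo which `f` is irreducible.
There is no condition at the infinite place. -/
structure InClass (f : ℤ[X]) (S : Finset ℕ) (M : Type) [Field M] [NumberField M] : Prop where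
  galois : IsGalois ℚ M
  degree : ∃ n : ℕ, Module.finrank ℚ M = 2 ^ n
  dyadic : Nonempty (M →+* ℚ_[2])
  split : ∀ q ∈ S, SplitsCompletely M q
  ramified : ∀ p : ℕ, p.Prime → Unramified M p ∨ IrreducibleMod f p

end Pool.Agent.H8.Sha
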