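import Pool.Agent.H8.Sha.Gen

/-!
# Descent of the Tate-Shafarevich group of a twisted power
-/

set_option autoImplicit false

namespace Pool.Agent.H8.Sha

section grp

variable {k M : Type} [Field k] [Field M] [Algebra k M]
  (θ : SeparableClosure k ≃+* SeparableClosure M)
  (hθ : ∀ x, θ (algebraMap k (SeparableClosure k) x) =
        algebraMap M (SeparableClosure M) (algebraMap k M x))

/-- The embedding of `M` as a homomorphism of `k`-algebras. -/
noncomputable def embA : M →ₐ[k] SeparableClosure k :=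
  { emb θ with commutes' := fun x => emb_algebraMap θ hθ x }

/-- The group of the automorphisms that fix `M`. -/
noncomputable def fixM : Subgroup (Gal k) := (embA θ hθ).fieldRange.fixingSubgroup

theorem mem_fixM (σ : Gal k) : σ ∈ fixM θ hθ ↔ ∀ x : M, σ (emb θ x) = emb θ x := by
  rw [fixM, IntermediateField.mem_fixingSubgroup_iff]
  constructor
  · intro h x
    exact h (emb θ x) ⟨x, rfl⟩
  · rintro h _ ⟨x, rfl⟩
    exact h x

theorem exists_res_of_fixM (σ : Gal k) (h : σ ∈ fixM θ hθ) : ∃ τ : Gal M, res θ hθ τ = σ :=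
  mem_range_res θ hθ σ ((mem_fixM θ hθ σ).1 h)

theorem res_mem_fixM (τ : Gal M) : res θ hθ τ ∈ fixM θ hθ :=
  (mem_fixM θ hθ _).2 (res_emb θ hθ τ)

theorem galois_range [IsGalois k M] : IsGalois k (embA θ hθ).fieldRange :=
  IsGalois.of_algEquiv (AlgEquiv.ofInjectiveField (embA θ hθ))

theorem normal_fixM [IsGalois k M] : (fixM θ hθ).Normal := by
  have := galois_range θ hθ
  exact inferInstanceAs ((embA θ hθ).fieldRange.fixingSubgroup).Normal

theorem index_fixM : (fixM θ hθ).index = Module.finrank k M := by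
  rw [fixM, ← IntermediateField.finrank_eq_fixingSubgroup_index]
  exact (AlgEquiv.ofInjectiveField (embA θ hθ)).toLinearEquiv.finrank_eq.symm

end grp

section desc

variable (H : FG) {k M : Type} [Field k] [Field M] [Algebra k M] {r : ℕ}
  (R : Gal k →* (Matrix (Fin r) (Fin r) ℤ)ˣ)
  (θ : SeparableClosure k ≃+* SeparableClosure M)
  (hθ : ∀ x, θ (algebraMap k (SeparableClosure k) x) =
        algebraMap M (SeparableClosure M) (algebraMap k M x))
  (hR : ∀ σ : Gal k, (∀ x : M, σ (emb θ x) = emb θ x) → R σ = 1)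

/-- The rational points over `M`: `X(M) = X(M^sep) ^ Gal`, and `x ↦ x ^ ℓ` is bijective on `X(M)`. -/
structure Good (H : FG) (M : Type) [Field M] (ℓ : ℕ) : Prop where
  inj : Function.Injective (H.map (algebraMap M (SeparableClosure M)))
  fixed : ∀ P : H.X (SeparableClosure M),
    (∀ σ : Gal M, H.map (σ : SeparableClosure M →+* SeparableClosure M) P = P) →
      ∃ P₀, H.map (algebraMap M (SeparableClosure M)) P₀ = P
  div : Function.Bijective fun P : H.X M => P ^ ℓ

/-- The invariants of the automorphisms that fix `M`. -/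
theorem inv_iff (hg : ∀ P : H.X (SeparableClosure M),
    (∀ σ : Gal M, H.map (σ : SeparableClosure M →+* SeparableClosure M) P = P) →
      ∃ P₀, H.map (algebraMap M (SeparableClosure M)) P₀ = P)
    (P : Fin r → H.X (SeparableClosure k)) :
    (∀ ν ∈ fixM θ hθ, co (H.map (ν : SeparableClosure k →+* SeparableClosure k)) P = P) ↔
      ∃ P₀ : Fin r → H.X M, P = co (H.map (emb θ)) P₀ := by
  constructor
  · intro h
    have h1 : ∀ i, ∃ Q : H.X M, P i = H.map (emb θ) Q := by
      intro i
      obtain ⟨Q, hQ⟩ := hg (H.map (θ : SeparableClosure k →+* SeparableClosure M) (P i)) (by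
        intro σ
        rw [H.map_map, ← comp_res θ hθ, ← H.map_map]
        have := congrFun (h _ (res_mem_fixM θ hθ σ)) i
        rw [co_apply] at this
        rw [this])
      refine ⟨Q, ?_⟩
      have h2 := congrArg (H.map (θ.symm : SeparableClosure M →+* SeparableClosure k)) hQ
      rw [H.map_map, H.map_map] at h2
      rw [show emb θ = (θ.symm : SeparableClosure M →+* SeparableClosure k).comp
        (algebraMap M (SeparableClosure M)) from rfl, h2]
      have h3 : (θ.symm : SeparableClosure M →+* SeparableClosure k).comp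
          (θ : SeparableClosure k →+* SeparableClosure M) = RingHom.id _ :=
        RingHom.ext fun x => θ.symm_apply_apply x
      rw [h3, H.map_id]
    choose Q hQ using h1
    exact ⟨Q, funext hQ⟩
  · rintro ⟨P₀, rfl⟩ ν hν
    rw [co_co, show (ν : SeparableClosure k →+* SeparableClosure k).comp (emb θ) = emb θ from
      RingHom.ext fun x => (mem_fixM θ hθ ν).1 hν x]

include hR in
theorem inv_act (hg : ∀ P : H.X (SeparableClosure M),
    (∀ σ : Gal M, H.map (σ : SeparableClosure M →+* SeparableClosure M) P = P) →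
      ∃ P₀, H.map (algebraMap M (SeparableClosure M)) P₀ = P)
    (P : Fin r → H.X (SeparableClosure k)) :
    (∀ ν ∈ fixM θ hθ, actHom H R ν P = P) ↔ ∃ P₀ : Fin r → H.X M, P = co (H.map (emb θ)) P₀ := by
  rw [← inv_iff H θ hθ hg]
  refine forall_congr' fun ν => forall_congr' fun hν => ?_
  rw [actHom_apply, actA_of_one H R ν (hR ν ((mem_fixM θ hθ ν).1 hν))]

omit [Algebra k M] in
theorem emb_inj (hi : Function.Injective (H.map (algebraMap M (SeparableClosure M)))) :
    Function.Injective (co (H.map (emb θ)) : (Fin r → H.X M) → _) := by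
  intro P Q h
  funext i
  have h1 := congrFun h i
  rw [co_apply, co_apply] at h1
  apply hi
  have h2 := congrArg (H.map (θ : SeparableClosure k →+* SeparableClosure M)) h1
  rw [H.map_map, H.map_map] at h2
  have h3 : (θ : SeparableClosure k →+* SeparableClosure M).comp (emb θ) =
      algebraMap M (SeparableClosure M) := RingHom.ext fun x => theta_emb θ x
  rwa [h3] at h2

include hR in
/-- `x ↦ x ^ ℓ` is bijective on the invariants of the automorphisms that fix `M`. -/
theorem inv_roots (ℓ : ℕ) (hg : Good H M ℓ) (n : ℕ) :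
    (∀ x : Fin r → H.X (SeparableClosure k), (∀ ν ∈ fixM θ hθ, actHom H R ν x = x) →
      ∃ y, (∀ ν ∈ fixM θ hθ, actHom H R ν y = y) ∧ y ^ (ℓ ^ n) = x) ∧
    ∀ x : Fin r → H.X (SeparableClosure k), (∀ ν ∈ fixM θ hθ, actHom H R ν x = x) →
      x ^ (ℓ ^ n) = 1 → x = 1 := by
  refine pow_roots (fun x : Fin r → H.X (SeparableClosure k) =>
    ∀ ν ∈ fixM θ hθ, actHom H R ν x = x) ℓ ?_ ?_ ?_ n
  · intro x hx
    obtain ⟨P, rfl⟩ := (inv_act H R θ hθ hR hg.fixed x).1 hx
    have h1 : ∀ i, ∃ Q : H.X M, Q ^ ℓ = P i := fun i => hg.div.2 (P i)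
    choose Q hQ using h1
    refine ⟨co (H.map (emb θ)) Q, (inv_act H R θ hθ hR hg.fixed _).2 ⟨Q, rfl⟩, ?_⟩
    rw [← map_pow]
    congr 1
    exact funext hQ
  · intro x hx h
    obtain ⟨P, rfl⟩ := (inv_act H R θ hθ hR hg.fixed x).1 hx
    have h1 : P ^ ℓ = 1 := by
      apply emb_inj H θ hg.inj
      rw [map_pow, h, map_one]
    have h2 : P = 1 := by
      funext i
      apply hg.div.1
      show P i ^ ℓ = 1 ^ ℓ
      rw [one_pow]
      exact congrFun h1 i
    rw [h2, map_one]
  · intro x hx m ν hν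
    rw [map_pow, hx ν hν]

include hR in
/-- A cocycle is a coboundary if its restriction to `M` is. -/
theorem cob_desc [IsGalois k M] [FiniteDimensional k M] (ℓ n : ℕ)
    (hn : Module.finrank k M = ℓ ^ n) (hg : Good H M ℓ)
    (c : Gal k → (Fin r → H.X (SeparableClosure k))) (hc : IsCoc H R c)
    (h : ∀ i, IsCob1 H (rest H θ hθ c i)) : IsCob H R c := by
  have hnorm := normal_fixM θ hθ
  choose Q hQ using h
  have hpos : 0 < Module.finrank k M := Module.finrank_pos
  have h0 : ℓ ^ n ≠ 0 := by rw [← hn]; exact hpos.ne'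
  refine cob_of_normal (actHom H R) (fixM θ hθ) (ℓ ^ n) (by rw [index_fixM, hn]) h0
    (inv_roots H R θ hθ hR ℓ hg n).1 (inv_roots H R θ hθ hR ℓ hg n).2 c hc.2 ?_
  refine ⟨fun i => H.map (θ.symm : SeparableClosure M →+* SeparableClosure k) (Q i),
    fun ν hν => ?_⟩
  obtain ⟨τ, rfl⟩ := exists_res_of_fixM θ hθ ν hν
  rw [actHom_apply, actA_of_one H R _ (R_res R θ hθ hR τ)]
  funext i
  rw [Pi.div_apply, co_apply]
  have h1 := congrArg (H.map (θ.symm : SeparableClosure M →+* SeparableClosure k)) (hQ i τ)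
  have h3 : (θ.symm : SeparableClosure M →+* SeparableClosure k).comp
      (θ : SeparableClosure k →+* SeparableClosure M) = RingHom.id _ :=
    RingHom.ext fun x => θ.symm_apply_apply x
  rw [rest, H.map_map, h3, H.map_id, map_div, H.map_map] at h1
  rw [h1, H.map_map]
  congr 2
  congr 1
  refine RingHom.ext fun x => ?_
  show θ.symm (τ x) = θ.symm (τ (θ (θ.symm x)))
  rw [θ.apply_symm_apply]

include hR hθ in
/-- Unique divisibility of the rational points. -/
theorem div_desc [IsGalois k M] [FiniteDimensional k M] (ℓ : ℕ) (hg : Good H M ℓ)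
    (x : Fin r → H.X (SeparableClosure k)) (hx : ∀ σ : Gal k, actA H R σ x = x) :
    ∃! y, (∀ σ : Gal k, actA H R σ y = y) ∧ y ^ ℓ = x := by
  have hnorm := normal_fixM θ hθ
  have h1 := (inv_roots H R θ hθ hR ℓ hg 1)
  rw [pow_one] at h1
  exact fixed_of_normal (actHom H R) (fixM θ hθ) ℓ h1.1 h1.2 x hx

end desc

end Pool.Agent.H8.Sha
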