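import Pool.Agent.H8.Sha.Trans
import Pool.Graph.R_pool_sql_team_seeded_63374d34.N891.PQ.TwA
import Pool.Graph.R_pool_sql_team_seeded_63374d34.N498.PQ.Cpl
import Pool.Graph.R_pool_sql_team_seeded_63374d34.N424.JB.Pts

/-!
# The forms of the powers of a Jacobian which are split by a 2-extension
-/

set_option autoImplicit false

open Polynomial IsDedekindDomain NumberField

namespace Pool.Agent.H8.Sha

/-- An isomorphism of the separable closures over a given embedding. -/
theorem exists_theta_emb {k M : Type} [Field k] [Field M] [Algebra k M]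
    (e : M →ₐ[k] SeparableClosure k) :
    ∃ θ : SeparableClosure k ≃+* SeparableClosure M,
      (∀ x, θ (algebraMap k (SeparableClosure k) x) =
        algebraMap M (SeparableClosure M) (algebraMap k M x)) ∧ ∀ x, emb θ x = e x := by
  let _ : Algebra M (SeparableClosure k) := e.toRingHom.toAlgebra
  have : IsScalarTower k M (SeparableClosure k) :=
    IsScalarTower.of_algebraMap_eq fun x => (e.commutes x).symm
  have : Algebra.IsSeparable M (SeparableClosure k) :=
    Algebra.isSeparable_tower_top_of_isSeparable k M (SeparableClosure k)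
  have : IsSepClosure M (SeparableClosure k) := ⟨inferInstance, inferInstance⟩
  let θ : SeparableClosure k ≃ₐ[M] SeparableClosure M :=
    IsSepClosure.equiv M (SeparableClosure k) (SeparableClosure M)
  have h1 : ∀ x : M, θ (e x) = algebraMap M (SeparableClosure M) x := fun x => θ.commutes x
  refine ⟨θ.toRingEquiv, fun x => ?_, fun x => ?_⟩
  · rw [← h1]
    show θ (algebraMap k (SeparableClosure k) x) = θ (e (algebraMap k M x))
    rw [e.commutes]
  · show θ.symm (algebraMap M (SeparableClosure M) x) = e x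
    rw [← h1, θ.symm_apply_apply]

section fin

variable (f : ℤ[X]) {r : ℕ} (R : Gal ℚ →* (Matrix (Fin r) (Fin r) ℤ)ˣ)

theorem act_eq (σ : Gal ℚ) (P : Form.Pts f r (SeparableClosure ℚ)) :
    Form.act f R σ P = actA (JacFG f) R σ P := rfl

/-- The forms of `J ^ r` that are split by `M`. -/
theorem forms (hm : f.Monic) (hodd : Odd f.natDegree) (hirr : Irreducible (base f ℚ))
    (M : Type) [Field M] [NumberField M] [IsGalois ℚ M] (n : ℕ)
    (hn : Module.finrank ℚ M = 2 ^ n)
    (h1 : Pool.Agent.N874.Jac.UniquelyTwoDivisible (base f M))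
    (h2 : Pool.Agent.N874.Jac.ShaTwoTrivialReal (base f M) (𝓞 M))
    (e : M →+* SeparableClosure ℚ)
    (hR : ∀ σ : Gal ℚ, (∀ x, σ (e x) = e x) → R σ = 1) : Form.NoTwoPart f R := by
  have hsep : (base f M).Separable := by
    have h3 : (base f ℚ).Separable := hirr.separable
    rw [← base_map f (algebraMap ℚ M)]
    exact h3.map
  have hodd' : Odd (base f M).natDegree := by
    rw [base, Polynomial.natDegree_map_eq_of_injective (RingHom.injective_int _)]
    exact hodd
  have hg : Pool.Agent.Y160.SE.Good 2 (-1 : M) (base f M) :=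
    Pool.Agent.N424.JB.good_two two_ne_zero (hm.map _) hsep hodd'
  have hgood : Good (JacFG f) M 2 := good_jac f hg h1
  let e' : M →ₐ[ℚ] SeparableClosure ℚ :=
    { e with commutes' := fun x => (RingHom.congr_fun
        (Subsingleton.elim (e.comp (algebraMap ℚ M)) (algebraMap ℚ (SeparableClosure ℚ))) x) }
  obtain ⟨θ, hθ, hθe⟩ := exists_theta_emb e'
  have hR' : ∀ σ : Gal ℚ, (∀ x : M, σ (emb θ x) = emb θ x) → R σ = 1 := by
    intro σ hσ
    refine hR σ fun x => ?_
    have := hσ x
    rw [hθe] at this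
    exact this
  constructor
  · intro P hP
    exact div_desc (JacFG f) R θ hθ hR' 2 hgood P hP
  · intro c m hc hp hr hm2
    have hc' : IsCoc (JacFG f) R c := hc
    refine cob_desc (JacFG f) R θ hθ hR' 2 n hn hgood c hc' fun i => ?_
    have hloc : ∀ (E₀ E : Type) [Field E₀] [Field E] (ε₀ : ℚ →+* E₀) (ε : M →+* E) (κ₀ : E₀ →+* E),
        Form.TrivialOver f R E₀ c → LocTriv1 (JacFG f) E ε (rest (JacFG f) θ hθ c i) := by
      intro E₀ E _ _ ε₀ ε κ₀ h
      obtain ⟨ι, P, hP⟩ := h
      refine rest_loc (JacFG f) R θ hθ hR' c hc' E₀ E ε₀ ε κ₀ (fun x => RingHom.congr_fun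
        (Subsingleton.elim (κ₀.comp ε₀) (ε.comp (algebraMap ℚ M))) x) ⟨ι, fun x =>
        RingHom.congr_fun (Subsingleton.elim (ι.comp (algebraMap ℚ (SeparableClosure ℚ)))
          ((algebraMap E₀ (SeparableClosure E₀)).comp ε₀)) x, P, hP⟩ i
    refine sha_trans f h2 _ m (rest_coc (JacFG f) R θ hθ hR' c hc' i) ?_ ?_ ?_
    · intro v
      obtain ⟨p, hp1, hp2⟩ := Pool.Agent.N891.PQ.exists_below v
      have : Fact p.Prime := ⟨hp1⟩
      obtain ⟨κ, -⟩ := Pool.Agent.N498.PQ.cpl M p v hp2
      exact hloc ℚ_[p] _ (algebraMap ℚ ℚ_[p]) _ κ (hp p)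
    · intro ρ
      exact hloc ℝ ℝ (algebraMap ℚ ℝ) ρ (RingHom.id ℝ) hr
    · have h3 := rest_cob (JacFG f) R θ hθ hR' _ hm2 i
      have h5 : IsCob1 (JacFG f) (fun σ => rest (JacFG f) θ hθ c i σ ^ 2 ^ m) := by
        rw [← rest_pow]
        exact h3
      exact h5

end fin

end Pool.Agent.H8.Sha
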