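import Pool.Agent.H8.Sha.Def

/-!
# Separable closures of extensions, and the restriction of Galois groups
-/

set_option autoImplicit false

namespace Pool.Agent.H8.Sha

open IsDedekindDomain NumberField

section aut

variable {k : Type} [Field k]

/-- Two homomorphisms of the separable closure of `k` to a field, equal on `k`, differ by an
automorphism. -/
theorem exists_aut {L : Type} [Field L] (φ ψ : SeparableClosure k →+* L)
    (h : φ.comp (algebraMap k (SeparableClosure k)) = ψ.comp (algebraMap k (SeparableClosure k))) :
    ∃ ρ : Gal k, ∀ x, ψ x = φ (ρ x) := by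
  let _ : Algebra k L := (φ.comp (algebraMap k (SeparableClosure k))).toAlgebra
  let φ' : SeparableClosure k →ₐ[k] L := { φ with commutes' := fun x => rfl }
  let ψ' : SeparableClosure k →ₐ[k] L :=
    { ψ with commutes' := fun x => (RingHom.congr_fun h x).symm }
  have hr : ∀ x, ψ' x ∈ φ'.range := by
    intro x
    have hsp : ((minpoly k x).map (algebraMap k (SeparableClosure k))).Splits :=
      Normal.splits inferInstance x
    have hroot : Polynomial.aeval (ψ' x) (minpoly k x) = 0 := by
      rw [Polynomial.aeval_algHom_apply, minpoly.aeval, map_zero]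
    have h1 : (minpoly k x).map (algebraMap k L) =
        ((minpoly k x).map (algebraMap k (SeparableClosure k))).map φ'.toRingHom := by
      rw [Polynomial.map_map]
      congr 1
    have h0 : (minpoly k x) ≠ 0 := minpoly.ne_zero (Algebra.IsIntegral.isIntegral x)
    have h2 : (ψ' x) ∈ ((minpoly k x).map (algebraMap k L)).roots := by
      rw [Polynomial.mem_roots', Polynomial.IsRoot.def, Polynomial.eval_map_algebraMap]
      exact ⟨Polynomial.map_ne_zero h0, hroot⟩
    rw [h1, hsp.roots_map] at h2
    obtain ⟨y, _, hy⟩ := Multiset.mem_map.1 h2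
    exact ⟨y, hy⟩
  let e : SeparableClosure k ≃ₐ[k] φ'.range := AlgEquiv.ofInjective φ' φ'.toRingHom.injective
  let χ : SeparableClosure k →ₐ[k] SeparableClosure k :=
    (e.symm : φ'.range →ₐ[k] SeparableClosure k).comp (ψ'.codRestrict φ'.range hr)
  have hχ : ∀ x, φ' (χ x) = ψ' x := by
    intro x
    have h3 : ((e (χ x)) : L) = ψ' x := by
      show ((e (e.symm (ψ'.codRestrict φ'.range hr x))) : L) = ψ' x
      rw [AlgEquiv.apply_symm_apply]
      rfl
    exact h3
  have hb : Function.Bijective χ := Algebra.IsAlgebraic.algHom_bijective χ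
  exact ⟨AlgEquiv.ofBijective χ hb, fun x => (hχ x).symm⟩

/-- An automorphism of a field over an image of `k` restricts to the separable closure of `k`. -/
theorem exists_res {L : Type} [Field L] (φ : SeparableClosure k →+* L) (τ : L →+* L)
    (h : ∀ x : k, τ (φ (algebraMap k (SeparableClosure k) x)) =
      φ (algebraMap k (SeparableClosure k) x)) :
    ∃ ρ : Gal k, ∀ x, τ (φ x) = φ (ρ x) :=
  exists_aut φ (τ.comp φ) (RingHom.ext fun x => (h x).symm)

/-- A homomorphism of fields extends to the separable closures. -/
theorem exists_ext {E : Type} [Field E] (φ : k →+* E) :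
    ∃ κ : SeparableClosure k →+* SeparableClosure E,
      ∀ x, κ (algebraMap k (SeparableClosure k) x) = algebraMap E (SeparableClosure E) (φ x) := by
  let _ : Algebra k (SeparableClosure E) :=
    ((algebraMap E (SeparableClosure E)).comp φ).toAlgebra
  let κ : SeparableClosure k →ₐ[k] SeparableClosure E := IsSepClosed.lift
  exact ⟨κ.toRingHom, fun x => κ.commutes x⟩

end aut

section conj

variable {k M : Type} [Field k] [Field M] [Algebra k M]

/-- An isomorphism of the separable closures of `k` and of a finite separable extension. -/
theorem exists_theta [Algebra.IsSeparable k M] :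
    ∃ θ : SeparableClosure k ≃+* SeparableClosure M,
      ∀ x, θ (algebraMap k (SeparableClosure k) x) =
        algebraMap M (SeparableClosure M) (algebraMap k M x) := by
  have : Algebra.IsSeparable k (SeparableClosure M) :=
    Algebra.IsSeparable.trans k M (SeparableClosure M)
  have : IsSepClosure k (SeparableClosure M) := ⟨inferInstance, inferInstance⟩
  refine ⟨(IsSepClosure.equiv k (SeparableClosure k) (SeparableClosure M)).toRingEquiv,
    fun x => ?_⟩
  rw [← IsScalarTower.algebraMap_apply]
  exact (IsSepClosure.equiv k (SeparableClosure k) (SeparableClosure M)).commutes x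

variable (θ : SeparableClosure k ≃+* SeparableClosure M)
  (hθ : ∀ x, θ (algebraMap k (SeparableClosure k) x) =
        algebraMap M (SeparableClosure M) (algebraMap k M x))

/-- The restriction of the absolute Galois group of `M` to that of `k`. -/
noncomputable def res : Gal M →* Gal k where
  toFun τ := AlgEquiv.ofRingEquiv (f := (θ.trans (τ : SeparableClosure M ≃+* SeparableClosure M)).trans
    θ.symm) (fun x => by
      show θ.symm (τ (θ (algebraMap k (SeparableClosure k) x))) = _
      rw [hθ, τ.commutes, ← hθ, θ.symm_apply_apply])
  map_one' := by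
    refine AlgEquiv.ext fun x => ?_
    show θ.symm (θ x) = x
    exact θ.symm_apply_apply x
  map_mul' σ τ := by
    refine AlgEquiv.ext fun x => ?_
    show θ.symm (σ (τ (θ x))) = θ.symm (σ (θ (θ.symm (τ (θ x)))))
    rw [θ.apply_symm_apply]

theorem res_apply (τ : Gal M) (x : SeparableClosure k) : res θ hθ τ x = θ.symm (τ (θ x)) := rfl

theorem theta_res (τ : Gal M) (x : SeparableClosure k) : θ (res θ hθ τ x) = τ (θ x) := by
  rw [res_apply, θ.apply_symm_apply]

/-- The embedding of `M` in the separable closure of `k`. -/
noncomputable def emb : M →+* SeparableClosure k :=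
  (θ.symm : SeparableClosure M →+* SeparableClosure k).comp (algebraMap M (SeparableClosure M))

omit [Algebra k M] in
theorem theta_emb (x : M) : θ (emb θ x) = algebraMap M (SeparableClosure M) x :=
  θ.apply_symm_apply _

include hθ in
theorem emb_algebraMap (x : k) : emb θ (algebraMap k M x) = algebraMap k (SeparableClosure k) x := by
  show θ.symm (algebraMap M (SeparableClosure M) (algebraMap k M x)) = _
  rw [← hθ, θ.symm_apply_apply]

theorem res_emb (τ : Gal M) (x : M) : res θ hθ τ (emb θ x) = emb θ x := by
  rw [res_apply, theta_emb, τ.commutes]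
  rfl

/-- The image of the restriction is the group of the automorphisms that fix `M`. -/
theorem mem_range_res (σ : Gal k) (h : ∀ x : M, σ (emb θ x) = emb θ x) :
    ∃ τ : Gal M, res θ hθ τ = σ := by
  refine ⟨AlgEquiv.ofRingEquiv (f := (θ.symm.trans (σ : SeparableClosure k ≃+* SeparableClosure k)).trans
    θ) (fun x => ?_), ?_⟩
  · show θ (σ (emb θ x)) = _
    rw [h x, theta_emb]
  · refine AlgEquiv.ext fun x => ?_
    show θ.symm (θ (σ (θ.symm (θ x)))) = σ x
    rw [θ.symm_apply_apply, θ.symm_apply_apply]

theorem continuous_res : Continuous (res θ hθ) := by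
  refine continuous_of_continuousAt_one (res θ hθ) ?_
  rw [ContinuousAt, map_one]
  intro s hs
  rw [krullTopology_mem_nhds_one_iff] at hs
  obtain ⟨E, hE, hEs⟩ := hs
  rw [Filter.mem_map, krullTopology_mem_nhds_one_iff]
  have hfE : FiniteDimensional k E := hE
  let b := Module.finBasis k E
  let S : Set (SeparableClosure M) := Set.range fun i => θ (b i : SeparableClosure k)
  have hS : S.Finite := Set.finite_range _
  refine ⟨IntermediateField.adjoin M S, ?_, fun τ hτ => ?_⟩
  · have : Finite S := hS
    exact IntermediateField.finiteDimensional_adjoin fun x _ => Algebra.IsIntegral.isIntegral x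
  · show res θ hθ τ ∈ s
    refine hEs ?_
    have h1 : ∀ i, res θ hθ τ (b i : SeparableClosure k) = (b i : SeparableClosure k) := by
      intro i
      rw [res_apply]
      have h2 : τ (θ (b i : SeparableClosure k)) = θ (b i : SeparableClosure k) :=
        hτ ⟨_, IntermediateField.subset_adjoin M S ⟨i, rfl⟩⟩
      rw [h2, θ.symm_apply_apply]
    intro x
    have h3 : ∀ y : E, res θ hθ τ (y : SeparableClosure k) = (y : SeparableClosure k) := by
      intro y
      have h4 : (res θ hθ τ).toAlgHom.toLinearMap.comp E.val.toLinearMap = E.val.toLinearMap :=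
        b.ext fun i => h1 i
      exact LinearMap.congr_fun h4 y
    exact h3 x

end conj

end Pool.Agent.H8.Sha
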