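import Mathlib

/-!
# A cocycle that is a coboundary on a normal subgroup of finite index
-/

set_option autoImplicit false

namespace Pool.Agent.H8.Sha

/-- Let `N` be a normal subgroup of finite index `k` of `Γ`, and suppose that `x ↦ x ^ k` is bijective on
the invariants of `N`. A cocycle of `Γ` that is a coboundary on `N` is a coboundary. -/
theorem cob_of_normal {Γ X : Type*} [Group Γ] [CommGroup X] (a : Γ →* Monoid.End X)
    (N : Subgroup Γ) [N.Normal] (k : ℕ) (hk : N.index = k) (hk0 : k ≠ 0)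
    (hdiv : ∀ x, (∀ ν ∈ N, a ν x = x) → ∃ y, (∀ ν ∈ N, a ν y = y) ∧ y ^ k = x)
    (hinj : ∀ x, (∀ ν ∈ N, a ν x = x) → x ^ k = 1 → x = 1)
    (c : Γ → X) (hc : ∀ σ τ, c (σ * τ) = c σ * a σ (c τ))
    (h : ∃ Q, ∀ ν ∈ N, c ν = a ν Q / Q) : ∃ Q, ∀ σ, c σ = a σ Q / Q := by
  classical
  obtain ⟨Q, hQ⟩ := h
  have hmul : ∀ σ τ x, a (σ * τ) x = a σ (a τ x) := fun σ τ x => by
    rw [map_mul]; rfl
  set d : Γ → X := fun σ => c σ * (Q / a σ Q) with hd
  have hdc : ∀ σ τ, d (σ * τ) = d σ * a σ (d τ) := by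
    intro σ τ
    simp only [hd, hc, hmul, map_mul, map_div]
    have e : ∀ A B C D E : X, A * B * (C / E) = A * (C / D) * (B * (D / E)) := by
      intro A B C D E
      rw [div_eq_mul_inv, div_eq_mul_inv, div_eq_mul_inv]
      have : A * (C * D⁻¹) * (B * (D * E⁻¹)) = A * B * (C * E⁻¹) * (D⁻¹ * D) := by
        simp only [mul_comm, mul_left_comm, mul_assoc]
      rw [this, inv_mul_cancel, mul_one]
    exact e _ _ _ _ _
  have hdN : ∀ ν ∈ N, d ν = 1 := by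
    intro ν hν
    simp only [hd, hQ ν hν]
    rw [div_mul_div_cancel, div_self']
  have hd1 : ∀ σ, ∀ ν ∈ N, d (σ * ν) = d σ := fun σ ν hν => by
    rw [hdc, hdN ν hν, map_one, mul_one]
  have hd2 : ∀ σ, ∀ ν ∈ N, a ν (d σ) = d σ := by
    intro σ ν hν
    have h1 : d (ν * σ) = a ν (d σ) := by rw [hdc, hdN ν hν, one_mul]
    have h2 : ν * σ = σ * (σ⁻¹ * ν * σ) := by group
    have h3 : σ⁻¹ * ν * σ ∈ N := by
      have := Subgroup.Normal.conj_mem (H := N) inferInstance ν hν σ⁻¹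
      simpa using this
    rw [← h1, h2, hd1 σ _ h3]
  haveI : N.FiniteIndex := ⟨by rw [hk]; exact hk0⟩
  haveI : Fintype (Γ ⧸ N) := Subgroup.fintypeQuotientOfFiniteIndex
  have hcard : Fintype.card (Γ ⧸ N) = k := by
    rw [← hk, Subgroup.index, Nat.card_eq_fintype_card]
  set D : Γ ⧸ N → X := fun q => d q.out with hD
  have hDd : ∀ σ : Γ, D (σ : Γ ⧸ N) = d σ := by
    intro σ
    obtain ⟨ν, hν⟩ := QuotientGroup.mk_out_eq_mul N σ
    simp only [hD]
    rw [hν, hd1 σ ν ν.2]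
  set P : X := ∏ q : Γ ⧸ N, D q with hP
  have hPN : ∀ ν ∈ N, a ν P = P := by
    intro ν hν
    rw [hP, map_prod]
    exact Finset.prod_congr rfl fun q _ => hd2 _ ν hν
  have hkey : ∀ σ, d σ ^ k * a σ P = P := by
    intro σ
    have h1 : ∏ q : Γ ⧸ N, D ((σ : Γ ⧸ N) * q) = P :=
      Fintype.prod_equiv (Equiv.mulLeft (σ : Γ ⧸ N)) _ _ fun q => rfl
    rw [← hcard, ← Finset.card_univ, ← Finset.prod_const, hP, map_prod, ← Finset.prod_mul_distrib,
      ← hP, ← h1]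
    refine Finset.prod_congr rfl fun q _ => ?_
    obtain ⟨τ, rfl⟩ := QuotientGroup.mk_surjective q
    rw [hDd, ← QuotientGroup.mk_mul, hDd, hdc]
  obtain ⟨U, hU1, hU2⟩ := hdiv P hPN
  refine ⟨Q / U, fun σ => ?_⟩
  have hσU : ∀ ν ∈ N, a ν (a σ U) = a σ U := by
    intro ν hν
    have h3 : σ⁻¹ * ν * σ ∈ N := by
      have := Subgroup.Normal.conj_mem (H := N) inferInstance ν hν σ⁻¹
      simpa using this
    have h2 : ν * σ = σ * (σ⁻¹ * ν * σ) := by group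
    rw [← hmul, h2, hmul, hU1 _ h3]
  have h4 : d σ * a σ U / U = 1 := by
    refine hinj _ (fun ν hν => ?_) ?_
    · rw [map_div, map_mul, hd2 σ ν hν, hσU ν hν, hU1 ν hν]
    · rw [div_pow, mul_pow, ← map_pow, hU2, hkey, div_self']
  rw [div_eq_one] at h4
  have h5 : c σ = d σ * (a σ Q / Q) := by
    simp only [hd]
    rw [mul_assoc, div_mul_div_cancel, div_self', mul_one]
  rw [h5, map_div]
  have h6 : d σ = U / a σ U := eq_div_of_mul_eq' h4
  rw [h6, div_eq_mul_inv, div_eq_mul_inv, div_eq_mul_inv, div_eq_mul_inv, div_eq_mul_inv, mul_inv,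
    inv_inv]
  simp only [mul_comm, mul_left_comm, mul_assoc]

/-- The invariants of `Γ`: unique roots. -/
theorem fixed_of_normal {Γ X : Type*} [Group Γ] [CommGroup X] (a : Γ →* Monoid.End X)
    (N : Subgroup Γ) [N.Normal] (k : ℕ)
    (hdiv : ∀ x, (∀ ν ∈ N, a ν x = x) → ∃ y, (∀ ν ∈ N, a ν y = y) ∧ y ^ k = x)
    (hinj : ∀ x, (∀ ν ∈ N, a ν x = x) → x ^ k = 1 → x = 1) (x : X) (hx : ∀ σ, a σ x = x) :
    ∃! y, (∀ σ, a σ y = y) ∧ y ^ k = x := by
  have hmul : ∀ σ τ x, a (σ * τ) x = a σ (a τ x) := fun σ τ x => by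
    rw [map_mul]; rfl
  obtain ⟨y, hy1, hy2⟩ := hdiv x fun ν _ => hx ν
  have hyσ : ∀ σ, a σ y = y := by
    intro σ
    have h1 : a σ y / y = 1 := by
      refine hinj _ (fun ν hν => ?_) ?_
      · have h3 : σ⁻¹ * ν * σ ∈ N := by
          have := Subgroup.Normal.conj_mem (H := N) inferInstance ν hν σ⁻¹
          simpa using this
        have h2 : ν * σ = σ * (σ⁻¹ * ν * σ) := by group
        rw [map_div, ← hmul, h2, hmul, hy1 _ h3, hy1 ν hν]
      · rw [div_pow, ← map_pow, hy2, hx, div_self']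
    exact div_eq_one.1 h1
  refine ⟨y, ⟨hyσ, hy2⟩, fun z hz => ?_⟩
  have h1 : z / y = 1 := by
    refine hinj _ (fun ν hν => ?_) ?_
    · rw [map_div, hz.1, hyσ]
    · rw [div_pow, hz.2, hy2, div_self']
  exact div_eq_one.1 h1

/-- Unique roots of order `k ^ n`. -/
theorem pow_roots {X : Type*} [CommGroup X] (p : X → Prop) (k : ℕ)
    (hdiv : ∀ x, p x → ∃ y, p y ∧ y ^ k = x) (hinj : ∀ x, p x → x ^ k = 1 → x = 1)
    (hp : ∀ x, p x → ∀ m : ℕ, p (x ^ m)) (n : ℕ) :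
    (∀ x, p x → ∃ y, p y ∧ y ^ (k ^ n) = x) ∧ ∀ x, p x → x ^ (k ^ n) = 1 → x = 1 := by
  induction n with
  | zero => exact ⟨fun x hx => ⟨x, hx, by simp⟩, fun x _ h => by simpa using h⟩
  | succ n ih =>
    refine ⟨fun x hx => ?_, fun x hx h => ?_⟩
    · obtain ⟨y, hy, hyx⟩ := ih.1 x hx
      obtain ⟨z, hz, hzy⟩ := hdiv y hy
      exact ⟨z, hz, by rw [pow_succ', pow_mul, hzy, hyx]⟩
    · have h1 : (x ^ k) ^ (k ^ n) = 1 := by rw [← pow_mul, ← pow_succ', h]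
      exact hinj x hx (ih.2 _ (hp x hx k) h1)

end Pool.Agent.H8.Sha
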