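import Pool.Agent.H8.Sha.Fld
import Pool.Agent.H8.Sha.Grp

/-!
# Twisted powers of a commutative group functor on fields, and descent of their Tate-Shafarevich groups
-/

set_option autoImplicit false

namespace Pool.Agent.H8.Sha

/-- A functor from fields to commutative groups. -/
structure FG where
  X : (L : Type) → [Field L] → Type
  grp : ∀ (L : Type) [Field L], CommGroup (X L)
  map : ∀ {L L' : Type} [Field L] [Field L'], (L →+* L') → X L →* X L'
  map_id : ∀ (L : Type) [Field L] (P : X L), map (RingHom.id L) P = P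
  map_map : ∀ {L L' L'' : Type} [Field L] [Field L'] [Field L''] (φ : L →+* L') (ψ : L' →+* L'')
    (P : X L), map ψ (map φ P) = map (ψ.comp φ) P

attribute [instance] FG.grp

section mat

variable {G G' : Type} [CommGroup G] [CommGroup G'] {r : ℕ}

theorem zpow_sum' {ι : Type*} (g : G) (s : Finset ι) (f : ι → ℤ) :
    g ^ (∑ i ∈ s, f i) = ∏ i ∈ s, g ^ f i := by
  classical
  induction s using Finset.induction_on with
  | empty => simp
  | insert a s ha ih => rw [Finset.sum_insert ha, Finset.prod_insert ha, zpow_add, ih]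

theorem mat_one (P : Fin r → G) : mat 1 P = P := by
  funext i
  simp only [mat, Matrix.one_apply]
  rw [Finset.prod_eq_single i]
  · simp
  · intro j _ hj
    simp [hj.symm]
  · intro h
    exact absurd (Finset.mem_univ i) h

theorem mat_mul (A B : Matrix (Fin r) (Fin r) ℤ) (P : Fin r → G) :
    mat (A * B) P = mat A (mat B P) := by
  funext i
  simp only [mat, Matrix.mul_apply]
  have h1 : ∀ j, (∏ l, P l ^ B j l) ^ A i j = ∏ l, P l ^ (A i j * B j l) := by
    intro j
    rw [← Finset.prod_zpow]
    exact Finset.prod_congr rfl fun l _ => by rw [mul_comm, zpow_mul]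
  simp only [h1]
  rw [Finset.prod_comm]
  refine Finset.prod_congr rfl fun l _ => ?_
  exact zpow_sum' _ _ _

theorem mat_mul_right (A : Matrix (Fin r) (Fin r) ℤ) (P Q : Fin r → G) :
    mat A (P * Q) = mat A P * mat A Q := by
  funext i
  simp only [mat, Pi.mul_apply, mul_zpow, Finset.prod_mul_distrib]

/-- The action of an integral matrix as a homomorphism. -/
def matHom (A : Matrix (Fin r) (Fin r) ℤ) : (Fin r → G) →* (Fin r → G) where
  toFun := mat A
  map_one' := by
    funext i
    simp [mat]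
  map_mul' := mat_mul_right A

theorem mat_div (A : Matrix (Fin r) (Fin r) ℤ) (P Q : Fin r → G) :
    mat A (P / Q) = mat A P / mat A Q := map_div (matHom A) P Q

/-- A homomorphism on all the coordinates. -/
def co (φ : G →* G') : (Fin r → G) →* (Fin r → G') where
  toFun P i := φ (P i)
  map_one' := by
    funext i
    simp
  map_mul' P Q := by
    funext i
    simp

theorem co_apply (φ : G →* G') (P : Fin r → G) (i : Fin r) : co φ P i = φ (P i) := rfl

theorem mat_co (A : Matrix (Fin r) (Fin r) ℤ) (φ : G →* G') (P : Fin r → G) :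
    mat A (co φ P) = co φ (mat A P) := by
  funext i
  simp only [mat, co_apply, map_prod, map_zpow]

end mat

section act

variable (H : FG)

/-- The action of the automorphisms of `Ω` on `X(Ω) ^ r` twisted by `R`. -/
noncomputable def actA {k : Type} [Field k] {r : ℕ} (R : Gal k →* (Matrix (Fin r) (Fin r) ℤ)ˣ)
    (σ : Gal k) (P : Fin r → H.X (SeparableClosure k)) : Fin r → H.X (SeparableClosure k) :=
  mat (R σ : Matrix (Fin r) (Fin r) ℤ) (co (H.map (σ : SeparableClosure k →+* SeparableClosure k)) P)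

variable {k : Type} [Field k] {r : ℕ} (R : Gal k →* (Matrix (Fin r) (Fin r) ℤ)ˣ)

theorem co_co {L L' L'' : Type} [Field L] [Field L'] [Field L''] (φ : L →+* L') (ψ : L' →+* L'')
    (P : Fin r → H.X L) : co (H.map ψ) (co (H.map φ) P) = co (H.map (ψ.comp φ)) P := by
  funext i
  simp only [co_apply, H.map_map]

theorem co_id {L : Type} [Field L] (P : Fin r → H.X L) : co (H.map (RingHom.id L)) P = P := by
  funext i
  simp only [co_apply, H.map_id]

theorem actA_one (P : Fin r → H.X (SeparableClosure k)) : actA H R 1 P = P := by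
  rw [actA, map_one, Units.val_one, mat_one]
  exact co_id H P

theorem actA_mul (σ τ : Gal k) (P : Fin r → H.X (SeparableClosure k)) :
    actA H R (σ * τ) P = actA H R σ (actA H R τ P) := by
  rw [actA, actA, actA, map_mul, Units.val_mul, mat_mul, ← mat_co, co_co]
  rfl

theorem actA_mul_right (σ : Gal k) (P Q : Fin r → H.X (SeparableClosure k)) :
    actA H R σ (P * Q) = actA H R σ P * actA H R σ Q := by
  rw [actA, actA, actA, map_mul, mat_mul_right]

/-- The action as a homomorphism. -/
noncomputable def actHom : Gal k →* Monoid.End (Fin r → H.X (SeparableClosure k)) where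
  toFun σ :=
    { toFun := actA H R σ
      map_one' := by
        have h := actA_mul_right H R σ 1 1
        rw [mul_one] at h
        exact left_eq_mul.1 h
      map_mul' := actA_mul_right H R σ }
  map_one' := by
    apply MonoidHom.ext
    intro P
    exact actA_one H R P
  map_mul' σ τ := by
    apply MonoidHom.ext
    intro P
    exact actA_mul H R σ τ P

theorem actHom_apply (σ : Gal k) (P : Fin r → H.X (SeparableClosure k)) :
    actHom H R σ P = actA H R σ P := rfl

theorem actA_of_one (σ : Gal k) (h : R σ = 1) (P : Fin r → H.X (SeparableClosure k)) :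
    actA H R σ P = co (H.map (σ : SeparableClosure k →+* SeparableClosure k)) P := by
  rw [actA, h, Units.val_one, mat_one]

/-- Continuous cocycles. -/
def IsCoc (c : Gal k → (Fin r → H.X (SeparableClosure k))) : Prop :=
  IsLocallyConstant c ∧ ∀ σ τ : Gal k, c (σ * τ) = c σ * actA H R σ (c τ)

/-- Coboundaries. -/
def IsCob (c : Gal k → (Fin r → H.X (SeparableClosure k))) : Prop :=
  ∃ Q, ∀ σ : Gal k, c σ = actA H R σ Q / Q

/-- The restriction of `c` to the absolute Galois group of `E` is a coboundary. -/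
def LocTriv (E : Type) [Field E] (ε : k →+* E)
    (c : Gal k → (Fin r → H.X (SeparableClosure k))) : Prop :=
  ∃ ι : SeparableClosure k →+* SeparableClosure E,
    (∀ x, ι (algebraMap k (SeparableClosure k) x) = algebraMap E (SeparableClosure E) (ε x)) ∧
    ∃ P : Fin r → H.X (SeparableClosure E), ∀ (τ : Gal E) (σ : Gal k),
      (∀ x, τ (ι x) = ι (σ x)) →
      co (H.map ι) (c σ) = mat (R σ : Matrix (Fin r) (Fin r) ℤ)
        (co (H.map (τ : SeparableClosure E →+* SeparableClosure E)) P) / P

/-- The restriction of `c` (one coordinate, no twist) to the absolute Galois group of `E` is a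
coboundary. -/
def LocTriv1 (E : Type) [Field E] (ε : k →+* E) (c : Gal k → H.X (SeparableClosure k)) : Prop :=
  ∃ ι : SeparableClosure k →+* SeparableClosure E,
    (∀ x, ι (algebraMap k (SeparableClosure k) x) = algebraMap E (SeparableClosure E) (ε x)) ∧
    ∃ P : H.X (SeparableClosure E), ∀ (τ : Gal E) (σ : Gal k),
      (∀ x, τ (ι x) = ι (σ x)) →
      H.map ι (c σ) = H.map (τ : SeparableClosure E →+* SeparableClosure E) P / P

/-- Continuous cocycles, one coordinate. -/
def IsCoc1 (c : Gal k → H.X (SeparableClosure k)) : Prop :=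
  IsLocallyConstant c ∧ ∀ σ τ : Gal k,
    c (σ * τ) = c σ * H.map (σ : SeparableClosure k →+* SeparableClosure k) (c τ)

/-- Coboundaries, one coordinate. -/
def IsCob1 (c : Gal k → H.X (SeparableClosure k)) : Prop :=
  ∃ Q, ∀ σ : Gal k, c σ = H.map (σ : SeparableClosure k →+* SeparableClosure k) Q / Q

end act

section main

variable (H : FG) {k M : Type} [Field k] [Field M] [Algebra k M] {r : ℕ}
  (R : Gal k →* (Matrix (Fin r) (Fin r) ℤ)ˣ)
  (θ : SeparableClosure k ≃+* SeparableClosure M)
  (hθ : ∀ x, θ (algebraMap k (SeparableClosure k) x) =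
        algebraMap M (SeparableClosure M) (algebraMap k M x))
  (hR : ∀ σ : Gal k, (∀ x : M, σ (emb θ x) = emb θ x) → R σ = 1)

/-- The restriction to `M` of a cocycle: a coordinate. -/
noncomputable def rest (c : Gal k → (Fin r → H.X (SeparableClosure k))) (i : Fin r) :
    Gal M → H.X (SeparableClosure M) :=
  fun τ => H.map (θ : SeparableClosure k →+* SeparableClosure M) (c (res θ hθ τ) i)

include hR in
theorem R_res (τ : Gal M) : R (res θ hθ τ) = 1 := hR _ (res_emb θ hθ τ)

theorem comp_res (τ : Gal M) :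
    (θ : SeparableClosure k →+* SeparableClosure M).comp
        ((res θ hθ τ : Gal k) : SeparableClosure k →+* SeparableClosure k) =
      (τ : SeparableClosure M →+* SeparableClosure M).comp
        (θ : SeparableClosure k →+* SeparableClosure M) :=
  RingHom.ext fun x => theta_res θ hθ τ x

include hR in
theorem rest_coc (c : Gal k → (Fin r → H.X (SeparableClosure k))) (hc : IsCoc H R c) (i : Fin r) :
    IsCoc1 H (rest H θ hθ c i) := by
  refine ⟨?_, fun σ τ => ?_⟩
  · have h1 : IsLocallyConstant (c ∘ res θ hθ) := hc.1.comp_continuous (continuous_res θ hθ)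
    exact h1.comp fun P => H.map (θ : SeparableClosure k →+* SeparableClosure M) (P i)
  · simp only [rest]
    rw [map_mul, hc.2, actA_of_one H R _ (R_res R θ hθ hR σ), Pi.mul_apply, map_mul, co_apply,
      H.map_map, H.map_map, comp_res]

include hR in
theorem rest_cob (c : Gal k → (Fin r → H.X (SeparableClosure k))) (hc : IsCob H R c) (i : Fin r) :
    IsCob1 H (rest H θ hθ c i) := by
  obtain ⟨Q, hQ⟩ := hc
  refine ⟨H.map (θ : SeparableClosure k →+* SeparableClosure M) (Q i), fun σ => ?_⟩
  simp only [rest]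
  rw [hQ, actA_of_one H R _ (R_res R θ hθ hR σ), Pi.div_apply, map_div, co_apply,
    H.map_map, H.map_map, comp_res]

theorem rest_pow (c : Gal k → (Fin r → H.X (SeparableClosure k))) (n : ℕ) (i : Fin r) :
    rest H θ hθ (fun σ => c σ ^ n) i = fun σ => rest H θ hθ c i σ ^ n := by
  funext σ
  simp only [rest, Pi.pow_apply, map_pow]

include hR in
/-- Local triviality over `E₀` implies local triviality of the restriction over all `E ⊇ E₀`. -/
theorem rest_loc (c : Gal k → (Fin r → H.X (SeparableClosure k))) (hc : IsCoc H R c)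
    (E₀ E : Type) [Field E₀] [Field E] (ε₀ : k →+* E₀) (ε : M →+* E) (κ₀ : E₀ →+* E)
    (hκ₀ : ∀ x, κ₀ (ε₀ x) = ε (algebraMap k M x)) (h : LocTriv H R E₀ ε₀ c) (i : Fin r) :
    LocTriv1 H E ε (rest H θ hθ c i) := by
  obtain ⟨ι₀, hι₀, P₀, hP₀⟩ := h
  obtain ⟨κ, hκ⟩ := exists_ext κ₀
  obtain ⟨ι, hι⟩ := exists_ext ε
  obtain ⟨ρ, hρ⟩ := exists_aut (κ.comp ι₀) (ι.comp (θ : SeparableClosure k →+* SeparableClosure M))
    (RingHom.ext fun x => by
      show κ (ι₀ (algebraMap k (SeparableClosure k) x)) =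
        ι (θ (algebraMap k (SeparableClosure k) x))
      rw [hι₀, hκ, hθ, hι, hκ₀])
  have hρ' : (ι.comp (θ : SeparableClosure k →+* SeparableClosure M)) =
      (κ.comp ι₀).comp (ρ : SeparableClosure k →+* SeparableClosure k) :=
    RingHom.ext hρ
  let P₁ : Fin r → H.X (SeparableClosure E) := co (H.map κ) P₀ * co (H.map (κ.comp ι₀)) (c ρ)
  let P : Fin r → H.X (SeparableClosure E) :=
    mat (((R ρ)⁻¹ : (Matrix (Fin r) (Fin r) ℤ)ˣ) : Matrix (Fin r) (Fin r) ℤ) P₁
  refine ⟨ι, hι, P i, fun τ σ hτσ => ?_⟩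
  obtain ⟨τ₀, hτ₀⟩ := exists_res κ (τ : SeparableClosure E →+* SeparableClosure E) (fun x => by
    rw [hκ]
    exact τ.commutes _)
  obtain ⟨σ₀, hσ₀⟩ := exists_res ι₀ (τ₀ : SeparableClosure E₀ →+* SeparableClosure E₀) (fun x => by
    rw [hι₀]
    exact τ₀.commutes _)
  set σ' : Gal k := res θ hθ σ with hσ'
  have hR' : R σ' = 1 := R_res R θ hθ hR σ
  -- the relation `ρ σ' = σ₀ ρ`
  have e1 : ∀ x, κ (ι₀ (σ₀ (ρ x))) = κ (ι₀ (ρ (σ' x))) := by
    intro x
    have a1 : ι₀ (σ₀ (ρ x)) = τ₀ (ι₀ (ρ x)) := (hσ₀ (ρ x)).symm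
    have a2 : κ (τ₀ (ι₀ (ρ x))) = τ (κ (ι₀ (ρ x))) := (hτ₀ (ι₀ (ρ x))).symm
    have a3 : κ (ι₀ (ρ x)) = ι (θ x) := (hρ x).symm
    have a4 : κ (ι₀ (ρ (σ' x))) = ι (θ (σ' x)) := (hρ (σ' x)).symm
    rw [a1, a2, a3, a4, theta_res, hτσ]
  have e2 : ρ * σ' = σ₀ * ρ := by
    refine AlgEquiv.ext fun x => ?_
    exact (ι₀.injective (κ.injective (e1 x))).symm
  have hττ : (τ : SeparableClosure E →+* SeparableClosure E).comp κ =
      κ.comp (τ₀ : SeparableClosure E₀ →+* SeparableClosure E₀) := RingHom.ext hτ₀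
  have hσσ : (τ₀ : SeparableClosure E₀ →+* SeparableClosure E₀).comp ι₀ =
      ι₀.comp (σ₀ : SeparableClosure k →+* SeparableClosure k) := RingHom.ext hσ₀
  -- the cocycle relation
  have c1 : c σ₀ * actA H R σ₀ (c ρ) = c ρ * actA H R ρ (c σ') := by
    rw [← hc.2, ← hc.2, e2]
  have c2 : actA H R ρ (c σ') = c σ₀ * actA H R σ₀ (c ρ) / c ρ := by
    rw [c1, mul_comm (c ρ), mul_div_assoc, div_self', mul_one]
  have hloc := hP₀ τ₀ σ₀ (fun x => hσ₀ x)
  -- apply `κ ι₀`
  have c3 : mat (R ρ : Matrix (Fin r) (Fin r) ℤ)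
      (co (H.map (ι.comp (θ : SeparableClosure k →+* SeparableClosure M))) (c σ')) =
      mat (R σ₀ : Matrix (Fin r) (Fin r) ℤ)
        (co (H.map (τ : SeparableClosure E →+* SeparableClosure E)) P₁) / P₁ := by
    have d1 := congrArg (co (H.map (κ.comp ι₀))) c2
    rw [map_div, map_mul] at d1
    rw [actA, ← mat_co, co_co, ← hρ'] at d1
    rw [d1]
    have d2 : co (H.map (κ.comp ι₀)) (c σ₀) = mat (R σ₀ : Matrix (Fin r) (Fin r) ℤ)
        (co (H.map (τ : SeparableClosure E →+* SeparableClosure E)) (co (H.map κ) P₀)) /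
        co (H.map κ) P₀ := by
      rw [← co_co, hloc, map_div, ← mat_co, co_co, co_co, hττ]
    have d3 : co (H.map (κ.comp ι₀)) (actA H R σ₀ (c ρ)) = mat (R σ₀ : Matrix (Fin r) (Fin r) ℤ)
        (co (H.map (τ : SeparableClosure E →+* SeparableClosure E))
          (co (H.map (κ.comp ι₀)) (c ρ))) := by
      rw [actA, ← mat_co, co_co, co_co, RingHom.comp_assoc, ← hσσ, ← RingHom.comp_assoc, ← hττ,
        RingHom.comp_assoc]
    rw [d2, d3, map_mul, mat_mul_right]
    rw [div_mul_eq_mul_div, div_div]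
  -- multiply by the inverse of `R ρ`
  have c4 : co (H.map (ι.comp (θ : SeparableClosure k →+* SeparableClosure M))) (c σ') =
      co (H.map (τ : SeparableClosure E →+* SeparableClosure E)) P / P := by
    have f1 := congrArg (mat (((R ρ)⁻¹ : (Matrix (Fin r) (Fin r) ℤ)ˣ) :
      Matrix (Fin r) (Fin r) ℤ)) c3
    rw [← mat_mul, ← Units.val_mul, inv_mul_cancel, Units.val_one, mat_one, mat_div, ← mat_mul,
      ← Units.val_mul] at f1
    rw [f1]
    have f2 : (R ρ)⁻¹ * R σ₀ = (R ρ)⁻¹ := by
      have f3 : R ρ = R σ₀ * R ρ := by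
        rw [← map_mul, ← e2, map_mul, hR', mul_one]
      have f4 : R σ₀ = 1 := by
        have := congrArg (fun z => z * (R ρ)⁻¹) f3
        simpa using this.symm
      rw [f4, mul_one]
    rw [f2, mat_co]
  have c5 := congrFun c4 i
  rw [Pi.div_apply, co_apply, co_apply, ← H.map_map] at c5
  exact c5

end main

end Pool.Agent.H8.Sha
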