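import Pool.Agent.H8.Sha.Desc
import Pool.Graph.R_pool_sql_team_seeded_63374d34.N874.Jac.Def
import Pool.Graph.R_pool_sql_team_seeded_63374d34.N655.JB.Inj

/-!
# The functor of the Jacobian, and the comparison with the earlier definitions
-/

set_option autoImplicit false

open Polynomial

namespace Pool.Agent.H8.Sha

open Pool.Agent.Y160.SE (CR crMap jm)
open Pool.Agent.TH115.GD (incl rs ak)

section cr

variable {L L' L'' : Type} [Field L] [Field L'] [Field L'']

theorem crMap_comp' (φ : L →+* L') (ψ : L' →+* L'') (p : L[X]) (p' : L'[X]) (p'' : L''[X])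
    (h : p.map φ = p') (h' : p'.map ψ = p'') (h'' : p.map (ψ.comp φ) = p'') :
    (crMap 2 ψ p' p'' h').comp (crMap 2 φ p p' h) = crMap 2 (ψ.comp φ) p p'' h'' :=
  (Pool.Agent.Y160.SE.crMap_comp φ ψ h h' h'').symm

theorem crMap_id' (p : L[X]) (h : p.map (RingHom.id L) = p) :
    crMap 2 (RingHom.id L) p p h = RingHom.id _ :=
  Pool.Agent.Y160.SE.crMap_id h

theorem coordMap_eq (f : ℤ[X]) (φ : L →+* L') :
    Coord.map f φ = crMap 2 φ (base f L) (base f L') (base_map f φ) := by
  rfl

/-- The homomorphism of Picard groups. -/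
noncomputable def pp (φ : L →+* L') (p : L[X]) (p' : L'[X]) (h : p.map φ = p') :
    CommRing.Pic (CR 2 p) →* CommRing.Pic (CR 2 p') :=
  CommRing.Pic.mapRingHom (crMap 2 φ p p' h)

theorem pp_comp (φ : L →+* L') (ψ : L' →+* L'') (p : L[X]) (p' : L'[X]) (p'' : L''[X])
    (h : p.map φ = p') (h' : p'.map ψ = p'') (h'' : p.map (ψ.comp φ) = p'')
    (P : CommRing.Pic (CR 2 p)) : pp ψ p' p'' h' (pp φ p p' h P) = pp (ψ.comp φ) p p'' h'' P := by
  rw [pp, pp, pp, CommRing.Pic.mapRingHom_mapRingHom, crMap_comp']

theorem pp_id (p : L[X]) (h : p.map (RingHom.id L) = p) (P : CommRing.Pic (CR 2 p)) :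
    pp (RingHom.id L) p p h P = P := by
  rw [pp, crMap_id', CommRing.Pic.mapRingHom_id]
  rfl

theorem pp_congr (φ φ' : L →+* L') (e : φ = φ') (p : L[X]) (p' : L'[X]) (h : p.map φ = p')
    (h' : p.map φ' = p') (P : CommRing.Pic (CR 2 p)) : pp φ p p' h P = pp φ' p p' h' P := by
  subst e
  rfl

end cr

theorem jac_map_id (f : ℤ[X]) (L : Type) [Field L] (P : Jac f L) :
    Jac.map f (RingHom.id L) P = P :=
  pp_id (base f L) (by rw [Polynomial.map_id]) P

theorem jac_map_map (f : ℤ[X]) {L L' L'' : Type} [Field L] [Field L'] [Field L'']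
    (φ : L →+* L') (ψ : L' →+* L'') (P : Jac f L) :
    Jac.map f ψ (Jac.map f φ P) = Jac.map f (ψ.comp φ) P :=
  pp_comp φ ψ (base f L) (base f L') (base f L'') (base_map f φ) (base_map f ψ) (base_map f _) P

/-- The functor of the Jacobian. -/
noncomputable def JacFG (f : ℤ[X]) : FG where
  X L _ := Jac f L
  grp L _ := instJac f L
  map φ := Jac.map f φ
  map_id L _ P := jac_map_id f L P
  map_map φ ψ P := jac_map_map f φ ψ P

section cmp

open Pool.Agent.N874.Jac (J mapJ CoordRing coordMap)

variable {M : Type} [Field M] (f : ℤ[X])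

theorem base_eq (L : Type) [Field L] [Algebra M L] :
    ((base f M).map (algebraMap M L)).map (RingHom.id L) = base f L := by
  rw [Polynomial.map_id, base_map]

theorem base_eq' (L : Type) [Field L] [Algebra M L] :
    (base f L).map (RingHom.id L) = (base f M).map (algebraMap M L) := by
  rw [Polynomial.map_id, base_map]

theorem base_eq'' {L L' : Type} [Field L] [Algebra M L] [Field L'] [Algebra M L']
    (φ : L →+* L') : ((base f M).map (algebraMap M L)).map φ = (base f M).map (algebraMap M L') := by
  rw [base_map, base_map, base_map]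

/-- The comparison isomorphism. -/
noncomputable def uu (L : Type) [Field L] [Algebra M L] : J (base f M) L →* Jac f L :=
  pp (RingHom.id L) ((base f M).map (algebraMap M L)) (base f L) (base_eq f L)

/-- The inverse of the comparison isomorphism. -/
noncomputable def vv (L : Type) [Field L] [Algebra M L] : Jac f L →* J (base f M) L :=
  pp (RingHom.id L) (base f L) ((base f M).map (algebraMap M L)) (base_eq' f L)

theorem uu_vv (L : Type) [Field L] [Algebra M L] (P : Jac f L) :
    uu (M := M) f L (vv f L P) = P :=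
  (pp_comp (RingHom.id L) (RingHom.id L) (base f L) ((base f M).map (algebraMap M L)) (base f L)
    (base_eq' f L) (base_eq f L) (by rw [RingHom.comp_id, Polynomial.map_id]) P).trans
    (pp_id (base f L) (by rw [Polynomial.map_id]) P)

theorem vv_uu (L : Type) [Field L] [Algebra M L] (P : J (base f M) L) :
    vv f L (uu f L P) = P :=
  (pp_comp (RingHom.id L) (RingHom.id L) ((base f M).map (algebraMap M L)) (base f L)
    ((base f M).map (algebraMap M L)) (base_eq f L) (base_eq' f L)
    (by rw [RingHom.comp_id, Polynomial.map_id]) P).trans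
    (pp_id ((base f M).map (algebraMap M L)) (by rw [Polynomial.map_id]) P)

theorem vv_map {L L' : Type} [Field L] [Algebra M L] [Field L'] [Algebra M L'] (φ : L →ₐ[M] L')
    (P : Jac f L) :
    vv (M := M) f L' (Jac.map f (φ : L →+* L') P) = mapJ (base f M) φ (vv f L P) := by
  have h1 := pp_comp (φ : L →+* L') (RingHom.id L') (base f L) (base f L')
    ((base f M).map (algebraMap M L')) (base_map f _) (base_eq' f L')
    (by rw [RingHom.id_comp, base_map, base_map]) P
  have h2 := pp_comp (RingHom.id L) (φ : L →+* L') (base f L) ((base f M).map (algebraMap M L))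
    ((base f M).map (algebraMap M L')) (base_eq' f L) (base_eq'' f _)
    (by rw [RingHom.comp_id, base_map, base_map]) P
  exact h1.trans h2.symm

theorem uu_map {L L' : Type} [Field L] [Algebra M L] [Field L'] [Algebra M L'] (φ : L →ₐ[M] L')
    (P : J (base f M) L) :
    uu f L' (mapJ (base f M) φ P) = Jac.map f (φ : L →+* L') (uu f L P) := by
  have h := vv_map f φ (uu f L P)
  rw [vv_uu] at h
  rw [← h, uu_vv]

end cmp

end Pool.Agent.H8.Sha
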