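import Pool.Agent.H8.Sha.Jac
import Pool.Graph.R_seed8.Y160.SE.Lam
import Pool.Graph.R_seed8.Y160.SE.All
import Pool.Graph.R_pool_sql_team_seeded_63374d34.N106.JB.Sha

/-!
# Transfer of the results over `M`
-/

set_option autoImplicit false

open Polynomial IsDedekindDomain NumberField

namespace Pool.Agent.H8.Sha

open Pool.Agent.Y160.SE (CR crMap jm)
open Pool.Agent.TH115.GD (incl rs ak)
open Pool.Agent.N874.Jac (J mapJ CoordRing coordMap)
open Pool.Agent.N106.JB (ad mu ad_mapJ ad_inj ad_mu mu_ad)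

section trans

variable {M : Type} [Field M]

theorem alg_eq (Ω : Type) [Field Ω] [Algebra M Ω] :
    ((incl M M Ω : M →ₐ[M] Ω) : M →+* Ω) = algebraMap M Ω := RingHom.ext fun _ => rfl

/-- A class written additively. -/
def ad' {L : Type} [Field L] [Algebra M L] {F : M[X]} (x : J F L) : Pool.Agent.Y160.SE.Jac 2 F L :=
  ad (ℓ := 2) (f := F) (L := L) x

/-- A class written multiplicatively. -/
def mu' {L : Type} [Field L] [Algebra M L] {F : M[X]} (x : Pool.Agent.Y160.SE.Jac 2 F L) : J F L :=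
  mu (ℓ := 2) (f := F) (L := L) x

theorem ad_mapJ' {L L' : Type} [Field L] [Algebra M L] [Field L'] [Algebra M L'] {F : M[X]}
    (φ : L →ₐ[M] L') (x : J F L) : ad' (mapJ F φ x) = jm 2 F φ (ad' x) :=
  ad_mapJ (ℓ := 2) (f := F) φ x

theorem ad_inj' {L : Type} [Field L] [Algebra M L] {F : M[X]} {x y : J F L}
    (h : ad' x = ad' y) : x = y := h

theorem mapJ_inj (F : M[X]) (hg : Pool.Agent.Y160.SE.Good 2 (-1 : M) F) (Ω : Type) [Field Ω]
    [Algebra M Ω] [IsGalois M Ω] : Function.Injective (mapJ F (incl M M Ω)) := by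
  intro P Q h
  apply ad_inj'
  apply Pool.Agent.N655.JB.inj M Ω F hg
  rw [← ad_mapJ', ← ad_mapJ', h]

theorem mapJ_fixed (F : M[X]) (hg : Pool.Agent.Y160.SE.Good 2 (-1 : M) F) (Ω : Type) [Field Ω]
    [Algebra M Ω] [IsGalois M Ω] (P : J F Ω)
    (h : ∀ σ : Ω ≃ₐ[M] Ω, mapJ F (ak σ) P = P) :
    ∃ P₀ : J F M, mapJ F (incl M M Ω) P₀ = P := by
  obtain ⟨y, hy⟩ := Pool.Agent.Y160.SE.fixed_class (K := M) (E := M) (Ω := Ω)
    Pool.Agent.Y160.SE.hyps hg (ad' P) (fun τ => by
      have e1 : (rs M τ : Ω →ₐ[M] Ω) = ak τ := AlgHom.ext fun x => rfl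
      rw [e1, ← ad_mapJ', h τ])
  refine ⟨mu' y, ad_inj' ?_⟩
  rw [ad_mapJ']
  exact hy

variable (f : ℤ[X])

theorem jac_inj (hg : Pool.Agent.Y160.SE.Good 2 (-1 : M) (base f M)) (Ω : Type) [Field Ω]
    [Algebra M Ω] [IsGalois M Ω] :
    Function.Injective (Jac.map f (algebraMap M Ω)) := by
  intro P Q h
  have h1 := congrArg (vv (M := M) f Ω) h
  rw [← alg_eq, vv_map, vv_map] at h1
  have h3 : vv (M := M) f M P = vv f M Q := mapJ_inj _ hg Ω h1
  rw [← uu_vv (M := M) f M P, h3, uu_vv]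

theorem jac_fixed (hg : Pool.Agent.Y160.SE.Good 2 (-1 : M) (base f M)) (Ω : Type) [Field Ω]
    [Algebra M Ω] [IsGalois M Ω] (P : Jac f Ω)
    (h : ∀ σ : Ω ≃ₐ[M] Ω, Jac.map f (σ : Ω →+* Ω) P = P) :
    ∃ P₀ : Jac f M, Jac.map f (algebraMap M Ω) P₀ = P := by
  obtain ⟨y, hy⟩ := mapJ_fixed (base f M) hg Ω (vv f Ω P) (by
      intro τ
      rw [← vv_map]
      exact congrArg (vv f Ω) (h τ))
  refine ⟨uu f M y, ?_⟩
  rw [← alg_eq, ← uu_map, hy, uu_vv]

theorem jac_div (h : Pool.Agent.N874.Jac.UniquelyTwoDivisible (base f M)) :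
    Function.Bijective fun P : Jac f M => P ^ 2 := by
  constructor
  · intro P Q h1
    have h2 : vv (M := M) f M P ^ 2 = vv f M Q ^ 2 := by
      rw [← map_pow, ← map_pow]
      exact congrArg (vv f M) h1
    have h3 : vv (M := M) f M P = vv f M Q := h.1 h2
    rw [← uu_vv (M := M) f M P, h3, uu_vv]
  · intro P
    obtain ⟨Q, hQ⟩ := h.2 (vv f M P)
    refine ⟨uu f M Q, ?_⟩
    have h2 : Q ^ 2 = vv f M P := hQ
    show uu f M Q ^ 2 = P
    rw [← map_pow, h2, uu_vv]

theorem good_jac (hg : Pool.Agent.Y160.SE.Good 2 (-1 : M) (base f M))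
    (h : Pool.Agent.N874.Jac.UniquelyTwoDivisible (base f M)) : Good (JacFG f) M 2 where
  inj := jac_inj f hg _
  fixed := jac_fixed f hg _
  div := jac_div f h

/-- Local triviality. -/
theorem loc_trans (c : Gal M → Jac f (SeparableClosure M)) (E : Type) [Field E] [Algebra M E]
    (hE : LocTriv1 (JacFG f) E (algebraMap M E) c) :
    Pool.Agent.N874.Jac.TrivialOver (F := base f M) E
        (fun σ => vv f (SeparableClosure M) (c σ)) := by
  obtain ⟨ι, hι, P, hP⟩ := hE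
  let ι' : SeparableClosure M →ₐ[M] SeparableClosure E :=
    { ι with commutes' := fun x => (hι x).trans (IsScalarTower.algebraMap_apply M E _ x).symm }
  let Q : Jac f (SeparableClosure E) := P
  refine ⟨ι', vv f (SeparableClosure E) Q, fun τ σ hτσ => ?_⟩
  have h3 : Jac.map f ι (c σ) =
    Jac.map f (τ : SeparableClosure E →+* SeparableClosure E) Q / Q := hP τ σ hτσ
  have h4 := congrArg (vv (M := M) f (SeparableClosure E)) h3
  rw [_root_.map_div] at h4
  have h5 := vv_map (M := M) f ι' (c σ)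
  have h6 := vv_map (M := M) f
    ((τ : SeparableClosure E →ₐ[E] SeparableClosure E).restrictScalars M) Q
  rw [← h5]
  refine h4.trans ?_
  congr 1

/-- Transfer of the triviality of the Tate-Shafarevich group. -/
theorem sha_trans [NumberField M]
    (h : Pool.Agent.N874.Jac.ShaTwoTrivialReal (base f M) (𝓞 M))
    (c : Gal M → Jac f (SeparableClosure M)) (m : ℕ) (hc : IsCoc1 (JacFG f) c)
    (hp : ∀ v : HeightOneSpectrum (𝓞 M), LocTriv1 (JacFG f) (v.adicCompletion M)
      (algebraMap M (v.adicCompletion M)) c)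
    (hr : ∀ ρ : M →+* ℝ, LocTriv1 (JacFG f) ℝ ρ c)
    (h2 : IsCob1 (JacFG f) (fun σ => c σ ^ 2 ^ m)) : IsCob1 (JacFG f) c := by
  have key := h (fun σ => vv f (SeparableClosure M) (c σ)) m ⟨?_, ?_⟩ ?_ ?_ ?_
  · obtain ⟨Q, hQ⟩ := key
    refine ⟨uu f _ Q, fun σ => ?_⟩
    have h3 := congrArg (uu f (SeparableClosure M)) (hQ σ)
    rw [uu_vv, _root_.map_div, uu_map] at h3
    exact h3
  · exact hc.1.comp _
  · intro σ τ
    have h3 : c (σ * τ) =
      c σ * Jac.map f (σ : SeparableClosure M →+* SeparableClosure M) (c τ) := hc.2 σ τ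
    show vv f _ (c (σ * τ)) = _
    rw [h3, _root_.map_mul]
    congr 1
    exact vv_map (M := M) f (σ : SeparableClosure M →ₐ[M] SeparableClosure M) (c τ)
  · intro v
    exact loc_trans f c _ (hp v)
  · intro ρ
    exact @loc_trans M _ f c ℝ _ ρ.toAlgebra (hr ρ)
  · obtain ⟨Q, hQ⟩ := h2
    let Q' : Jac f (SeparableClosure M) := Q
    refine ⟨vv f _ Q', fun σ => ?_⟩
    have h3 : c σ ^ 2 ^ m =
      Jac.map f (σ : SeparableClosure M →+* SeparableClosure M) Q' / Q' := hQ σ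
    have h4 := congrArg (vv (M := M) f (SeparableClosure M)) h3
    rw [_root_.map_pow, _root_.map_div] at h4
    have h5 := vv_map (M := M) f (σ : SeparableClosure M →ₐ[M] SeparableClosure M) Q'
    show vv f (SeparableClosure M) (c σ) ^ 2 ^ m =
      mapJ (base f M) (σ : SeparableClosure M →ₐ[M] SeparableClosure M) (vv f _ Q') / vv f _ Q'
    rw [← h5]
    exact h4

end trans

end Pool.Agent.H8.Sha
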